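import Pool.Agent.Helper61.FN.Goals

/-!
# Project FN (MP_06d934_gt), packet FN-LED (helper12): leading coefficients
-/

set_option autoImplicit false

namespace Pool.Agent.Helper12.FN

open Finset WithZero Pool.Agent.Helper61.FN

section residue

variable {K : Type} [Field K] (v : Valuation K (WithZero (Multiplicative ℤ)))

/-- the residue field -/
abbrev kk : Type := IsLocalRing.ResidueField v.valuationSubring

/-- the residue of an element of value at most one (`0` for the other elements) -/
noncomputable def rs (y : K) : kk v :=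
  if h : v y ≤ 1 then IsLocalRing.residue v.valuationSubring ⟨y, h⟩ else 0

theorem rs_of {y : K} (h : v y ≤ 1) : rs v y = IsLocalRing.residue v.valuationSubring ⟨y, h⟩ :=
  dif_pos h

theorem rs_mul {a b : K} (ha : v a ≤ 1) (hb : v b ≤ 1) : rs v (a * b) = rs v a * rs v b := by
  have h : v (a * b) ≤ 1 := by
    rw [map_mul]
    exact mul_le_one' ha hb
  rw [rs_of v h, rs_of v ha, rs_of v hb, ← map_mul]
  rfl

theorem rs_one : rs v 1 = 1 := by
  have h : v 1 ≤ 1 := by rw [map_one]
  rw [rs_of v h]
  exact map_one (IsLocalRing.residue v.valuationSubring)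

theorem rs_ne {y : K} (h : v y = 1) : rs v y ≠ 0 := by
  rw [rs_of v h.le, Ne, IsLocalRing.residue_eq_zero_iff, IsLocalRing.mem_maximalIdeal, mem_nonunits_iff,
    not_not, (Valuation.valuationSubring.integers v).isUnit_iff_valuation_eq_one]
  exact h

theorem rs_zero {y : K} (h : v y < 1) : rs v y = 0 := by
  rw [rs_of v h.le, IsLocalRing.residue_eq_zero_iff, IsLocalRing.mem_maximalIdeal, mem_nonunits_iff,
    (Valuation.valuationSubring.integers v).isUnit_iff_valuation_eq_one]
  exact h.ne

theorem rs_sum {J : Type} (s : Finset J) (f : J → K) (h : ∀ j ∈ s, v (f j) ≤ 1) :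
    v (∑ j ∈ s, f j) ≤ 1 ∧ rs v (∑ j ∈ s, f j) = ∑ j ∈ s, rs v (f j) := by
  classical
  induction s using Finset.induction_on with
  | empty =>
    have h0 : v (0 : K) ≤ 1 := by
      rw [map_zero]
      exact zero_le'
    rw [Finset.sum_empty, Finset.sum_empty]
    refine ⟨h0, ?_⟩
    rw [rs_of v h0]
    exact map_zero (IsLocalRing.residue v.valuationSubring)
  | insert a s ha ih =>
    obtain ⟨i1, i2⟩ := ih fun j hj => h j (Finset.mem_insert_of_mem hj)
    have h1 := h a (Finset.mem_insert_self a s)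
    rw [Finset.sum_insert ha, Finset.sum_insert ha]
    have h2 : v (f a + ∑ j ∈ s, f j) ≤ 1 := (v.map_add _ _).trans (max_le h1 i1)
    refine ⟨h2, ?_⟩
    rw [← i2, rs_of v h2, rs_of v h1, rs_of v i1, ← map_add]
    rfl

theorem rs_inv {y : K} (h : v y = 1) : rs v y⁻¹ = (rs v y)⁻¹ := by
  have hy : y ≠ 0 := by
    rintro rfl
    rw [map_zero] at h
    exact zero_ne_one h
  have h1 : v y⁻¹ = 1 := by rw [map_inv₀, h, inv_one]
  have h2 := rs_mul v h.le h1.le
  rw [mul_inv_cancel₀ hy, rs_one] at h2
  exact eq_inv_of_mul_eq_one_right h2.symm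

theorem rs_pow {y : K} (h : v y = 1) (n : ℕ) : rs v (y ^ n) = rs v y ^ n := by
  induction n with
  | zero => rw [pow_zero, pow_zero, rs_one]
  | succ n ih =>
    rw [pow_succ, pow_succ, rs_mul v _ h.le, ih]
    rw [map_pow, h, one_pow]

theorem rs_zpow {y : K} (h : v y = 1) (n : ℤ) : rs v (y ^ n) = rs v y ^ n := by
  cases n with
  | ofNat n =>
    rw [Int.ofNat_eq_natCast, zpow_natCast, zpow_natCast, rs_pow v h]
  | negSucc n =>
    rw [zpow_negSucc, zpow_negSucc, rs_inv v, rs_pow v h]
    rw [map_pow, h, one_pow]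

theorem rs_prod {J : Type} (s : Finset J) (f : J → K) (h : ∀ j ∈ s, v (f j) = 1) :
    v (∏ j ∈ s, f j) = 1 ∧ rs v (∏ j ∈ s, f j) = ∏ j ∈ s, rs v (f j) := by
  classical
  induction s using Finset.induction_on with
  | empty =>
    rw [Finset.prod_empty, Finset.prod_empty]
    exact ⟨map_one v, rs_one v⟩
  | insert a s ha ih =>
    obtain ⟨i1, i2⟩ := ih fun j hj => h j (Finset.mem_insert_of_mem hj)
    have h1 := h a (Finset.mem_insert_self a s)
    rw [Finset.prod_insert ha, Finset.prod_insert ha, map_mul, h1, i1, rs_mul v h1.le i1.le, i2]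
    exact ⟨one_mul _, rfl⟩

theorem rs_mon {E : Type} [Fintype E] {y : E → K} (h : ∀ e, v (y e) = 1) (m : E → ℤ) :
    v (mon y m) = 1 ∧ rs v (mon y m) = mon (fun e => rs v (y e)) m := by
  have h1 := rs_prod v univ (fun e => y e ^ m e) fun e _ => by rw [map_zpow₀, h, one_zpow]
  refine ⟨h1.1, h1.2.trans ?_⟩
  exact Finset.prod_congr rfl fun e _ => rs_zpow v (h e) (m e)

end residue

/-- **FN-LED** -/
theorem goalLED : G_LED := by
  intro F E K _ _ _ _ v x hF hπ hx
  obtain ⟨π, hπ⟩ := hπ
  have hπ0 : π ≠ 0 := by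
    rintro rfl
    rw [map_zero] at hπ
    exact exp_ne_zero hπ.symm
  have hFle : ∀ c : F, v (algebraMap F K c) ≤ 1 := by
    intro c
    by_cases hc : c = 0
    · rw [hc, map_zero, map_zero]
      exact zero_le'
    · exact (hF c hc).le
  let ι : F →+* v.valuationSubring :=
    { toFun := fun c => ⟨algebraMap F K c, hFle c⟩
      map_one' := Subtype.ext (map_one (algebraMap F K))
      map_mul' := fun a b => Subtype.ext (map_mul (algebraMap F K) a b)
      map_zero' := Subtype.ext (map_zero (algebraMap F K))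
      map_add' := fun a b => Subtype.ext (map_add (algebraMap F K) a b) }
  let A : Algebra F (kk v) := ((IsLocalRing.residue v.valuationSubring).comp ι).toAlgebra
  have hA : ∀ c : F, algebraMap F (kk v) c = rs v (algebraMap F K c) := by
    intro c
    rw [rs_of v (hFle c)]
    rfl
  have hvp : ∀ n : ℤ, v (π ^ n) = exp (-n) := by
    intro n
    rw [map_zpow₀, hπ, ← exp_zsmul]
    congr 1
    simp
  let u : E → ℤ := fun e => log (v (x e))
  have hu : ∀ e, v (x e) = exp (u e) := fun e => (exp_log ((map_ne_zero v).mpr (hx e))).symm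
  let y : E → K := fun e => x e * π ^ u e
  have hy : ∀ e, v (y e) = 1 := by
    intro e
    show v (x e * π ^ u e) = 1
    rw [map_mul, hvp, hu, ← exp_add, add_neg_cancel, exp_zero]
  have hmon : ∀ m : E → ℤ, mon y m = mon x m * π ^ gr m u := by
    intro m
    show ∏ e, (x e * π ^ u e) ^ m e = (∏ e, x e ^ m e) * π ^ ∑ e, m e * u e
    have h1 : ∀ s : Finset E, π ^ ∑ e ∈ s, m e * u e = ∏ e ∈ s, π ^ (m e * u e) := by
      classical
      intro s
      induction s using Finset.induction_on with
      | empty => rw [Finset.sum_empty, Finset.prod_empty, zpow_zero]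
      | insert a s ha ih => rw [Finset.sum_insert ha, Finset.prod_insert ha, zpow_add₀ hπ0, ih]
    rw [h1, ← Finset.prod_mul_distrib]
    apply Finset.prod_congr rfl
    intro e _
    rw [mul_zpow, ← zpow_mul, mul_comm (u e)]
  refine ⟨kk v, inferInstance, A, u, fun e => rs v (y e), fun e => rs_ne v (hy e), hu, ?_⟩
  intro J _ c m c0 g hsum hg hgr
  -- the terms
  have hterm : ∀ j, π ^ g * (algebraMap F K (c j) * mon x (m j)) =
      algebraMap F K (c j) * (π ^ (g - gr (m j) u) * mon y (m j)) := by
    intro j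
    rw [hmon, sub_eq_add_neg, zpow_add₀ hπ0, zpow_neg]
    have h1 : π ^ gr (m j) u ≠ 0 := zpow_ne_zero _ hπ0
    field_simp
  have hone : ∀ j, v (algebraMap F K (c j) * (π ^ (g - gr (m j) u) * mon y (m j))) ≤ 1 ∧
      rs v (algebraMap F K (c j) * (π ^ (g - gr (m j) u) * mon y (m j))) =
        if gr (m j) u = g then algebraMap F (kk v) (c j) * mon (fun e => rs v (y e)) (m j)
          else 0 := by
    intro j
    obtain ⟨m1, m2⟩ := rs_mon v hy (m j)
    by_cases hc : c j = 0
    · rw [hc, map_zero, zero_mul, map_zero, map_zero, zero_mul, ite_self]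
      refine ⟨zero_le', rs_zero v ?_⟩
      rw [map_zero]
      exact zero_lt_one
    · have hle := hgr j hc
      have h1 : v (π ^ (g - gr (m j) u)) ≤ 1 := by
        rw [hvp, ← exp_zero, exp_le_exp]
        omega
      have h2 : v (π ^ (g - gr (m j) u) * mon y (m j)) ≤ 1 := by
        rw [map_mul, m1, mul_one]
        exact h1
      have h3 : v (algebraMap F K (c j) * (π ^ (g - gr (m j) u) * mon y (m j))) ≤ 1 := by
        rw [map_mul]
        exact mul_le_one' (hFle _) h2
      refine ⟨h3, ?_⟩
      rw [rs_mul v (hFle _) h2, rs_mul v h1 m1.le, m2, hA]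
      by_cases he : gr (m j) u = g
      · rw [if_pos he, he, sub_self, zpow_zero, rs_one, one_mul]
      · rw [if_neg he, rs_zero v (y := π ^ (g - gr (m j) u)), zero_mul, mul_zero]
        rw [hvp, ← exp_zero, exp_lt_exp]
        omega
  obtain ⟨s1, s2⟩ := rs_sum v univ
    (fun j => algebraMap F K (c j) * (π ^ (g - gr (m j) u) * mon y (m j))) fun j _ => (hone j).1
  have hS : ∑ j, algebraMap F K (c j) * (π ^ (g - gr (m j) u) * mon y (m j)) =
      π ^ g * algebraMap F K c0 := by
    rw [← hsum, Finset.mul_sum]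
    exact Finset.sum_congr rfl fun j _ => (hterm j).symm
  rw [hS] at s2
  rw [Finset.sum_congr rfl fun j _ => (hone j).2] at s2
  rw [← s2]
  by_cases hg0 : g = 0
  · rw [if_pos hg0, hg0, zpow_zero, one_mul, hA]
  · rw [if_neg hg0]
    apply rs_zero
    rw [map_mul, hvp]
    have h1 : exp (-g) < (1 : WithZero (Multiplicative ℤ)) := by
      rw [← exp_zero, exp_lt_exp]
      omega
    exact lt_of_le_of_lt (mul_le_of_le_one_right' (hFle c0)) h1

end Pool.Agent.Helper12.FN
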